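import Pool.Agent.Lib.MP_045051_co.Net

/-!
Knaster's problem (Q1): sets without the Knaster property can be much smaller than `n - m + 2`.
There is a constant `C` such that for `n ≥ C m` and every `k ≥ C (n/m) / log (n/m)` there is a set
of `k` points of `S^n` without the Knaster property for maps to `ℝ^m`.
-/

namespace Pool.Agent.Results.MP_045051_co.FewPoints

/-- The Euclidean space `ℝ^{n+1}`. -/
abbrev E (n : ℕ) : Type := EuclideanSpace ℝ (Fin (n + 1))

/-- The unit sphere `S^n` of `ℝ^{n+1}`. -/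
abbrev Sph (n : ℕ) : Type := Metric.sphere (0 : E n) 1

/-- The action of a linear isometry of `ℝ^{n+1}` on `S^n`. -/
noncomputable def act {n : ℕ} (O : E n ≃ₗᵢ[ℝ] E n) (s : Sph n) : Sph n :=
  ⟨O s.1, by
    have h : ‖s.1‖ = 1 := norm_eq_of_mem_sphere s
    rw [mem_sphere_zero_iff_norm, LinearIsometryEquiv.norm_map, h]⟩

/-- `O` is a rotation, i.e. an element of `SO(n+1)`. -/
def IsRotation {n : ℕ} (O : E n ≃ₗᵢ[ℝ] E n) : Prop :=
  LinearMap.det (O.toLinearEquiv : E n →ₗ[ℝ] E n) = 1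

/-- The pair `(S, m)` has the Knaster property: for every continuous `f : S^n → ℝ^m` there is a
rotation `O` such that `f` takes the same value at all the points `O s`, `s ∈ S`. -/
def HasKnasterProperty (n m : ℕ) (S : Finset (Sph n)) : Prop :=
  ∀ f : Sph n → EuclideanSpace ℝ (Fin m), Continuous f →
    ∃ O : E n ≃ₗᵢ[ℝ] E n, IsRotation O ∧
      ∀ s ∈ S, ∀ t ∈ S, f (act O s) = f (act O t)

open Pool.Agent.Lib.MP_045051_co.Net

/-- The largest absolute value of a coordinate with label `i`. -/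
noncomputable def F {n m : ℕ} (β : Fin (n + 1) → Fin m) (i : Fin m) (x : E n) : ℝ :=
  Finset.univ.sup' Finset.univ_nonempty (fun j : Fin (n + 1) => if β j = i then |x j| else 0)

theorem continuous_F {n m : ℕ} (β : Fin (n + 1) → Fin m) (i : Fin m) : Continuous (F β i) := by
  unfold F
  apply Continuous.finset_sup'_apply
  intro j _
  split_ifs
  · fun_prop
  · exact continuous_const

theorem le_F {n m : ℕ} (β : Fin (n + 1) → Fin m) (i : Fin m) (x : E n) (j : Fin (n + 1))
    (hj : β j = i) : |x j| ≤ F β i x := by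
  have h := Finset.le_sup' (fun j : Fin (n + 1) => if β j = i then |x j| else 0)
    (Finset.mem_univ j)
  simp only [hj, if_true] at h
  exact h

theorem F_nonneg {n m : ℕ} (β : Fin (n + 1) → Fin m) (i : Fin m) (x : E n) : 0 ≤ F β i x := by
  have h := Finset.le_sup' (fun j : Fin (n + 1) => if β j = i then |x j| else 0)
    (Finset.mem_univ 0)
  refine le_trans ?_ h
  split_ifs
  · exact abs_nonneg _
  · exact le_refl _

theorem exists_F {n m : ℕ} (β : Fin (n + 1) → Fin m) (i : Fin m) (x : E n) (hpos : 0 < F β i x) :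
    ∃ j, β j = i ∧ |x j| = F β i x := by
  obtain ⟨j, _, hj⟩ := Finset.exists_mem_eq_sup' Finset.univ_nonempty
    (fun j : Fin (n + 1) => if β j = i then |x j| else 0)
  change F β i x = _ at hj
  by_cases h : β j = i
  · simp only [h, if_true] at hj
    exact ⟨j, h, hj.symm⟩
  · simp only [h, if_false] at hj
    rw [hj] at hpos
    exact absurd hpos (lt_irrefl _)

/-- An isometric embedding of `ℝ^D` into `ℝ^{n+1}`. -/
theorem exists_embedding {n D : ℕ} (hD : D ≤ n + 1) :
    Nonempty (EuclideanSpace ℝ (Fin D) →ₗᵢ[ℝ] E n) := by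
  let v := (EuclideanSpace.basisFun (Fin D) ℝ).toBasis
  let w : Fin D → E n := fun k => EuclideanSpace.basisFun (Fin (n + 1)) ℝ (Fin.castLE hD k)
  have hv : Orthonormal ℝ v := by
    simp [v]
  have hw : Orthonormal ℝ w :=
    (EuclideanSpace.basisFun (Fin (n + 1)) ℝ).orthonormal.comp _ (Fin.castLE_injective hD)
  let f : EuclideanSpace ℝ (Fin D) →ₗ[ℝ] E n := v.constr ℝ w
  have hf : Orthonormal ℝ (f ∘ v) := by
    have : (f ∘ v) = w := by
      funext k
      simp [f]
    rw [this]; exact hw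
  exact ⟨f.isometryOfOrthonormal hv hf⟩

/-- Each label class is small. -/
theorem card_class {n m : ℕ} (hm : 1 ≤ m) (i : Fin m) :
    (Finset.univ.filter (fun j : Fin (n + 1) =>
      (⟨(j : ℕ) % m, Nat.mod_lt _ hm⟩ : Fin m) = i)).card ≤ (n + 1) / m + 1 := by
  have h1 : (Finset.range ((n + 1) / m + 1)).card = (n + 1) / m + 1 := Finset.card_range _
  rw [← h1]
  apply Finset.card_le_card_of_injOn (fun j : Fin (n + 1) => (j : ℕ) / m)
  · intro j _
    have h2 : (j : ℕ) / m ≤ (n + 1) / m := Nat.div_le_div_right (by have := j.isLt; omega)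
    simp only [Finset.coe_range, Set.mem_Iio]
    omega
  · intro j hj j' hj' h
    simp only [Finset.coe_filter, Finset.mem_univ, true_and, Set.mem_ofPred_eq] at hj hj'
    have e1 : (j : ℕ) % m = (j' : ℕ) % m := by
      have := hj.trans hj'.symm
      exact Fin.mk.inj_iff.mp this
    have e2 : (j : ℕ) / m = (j' : ℕ) / m := h
    apply Fin.ext
    rw [← Nat.div_add_mod (j : ℕ) m, ← Nat.div_add_mod (j' : ℕ) m, e1, e2]

/-- The label of a coordinate. -/
def lab {n m : ℕ} (hm : 1 ≤ m) (j : Fin (n + 1)) : Fin m := ⟨(j : ℕ) % m, Nat.mod_lt _ hm⟩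

/-- The block maxima cannot all be constant on the net and on the cluster. -/
theorem core {n m D b : ℕ} (hm : 1 ≤ m) (hD2 : 2 ≤ D)
    (hb : 17 * ((n + 1) / m + 1) < D * b)
    (J : EuclideanSpace ℝ (Fin D) →ₗᵢ[ℝ] E n)
    (A : Finset (EuclideanSpace ℝ (Fin D)))
    (hA : ∀ x : EuclideanSpace ℝ (Fin D), x ≠ 0 → ∃ a ∈ A, ‖x‖ ≤ 2 * inner ℝ a x)
    (p q : EuclideanSpace ℝ (Fin D)) (np : ‖p‖ = 1) (nq : ‖q‖ = 1)
    (τ : Fin b → ℝ) (hτ : StrictMono τ) (hτ1 : ∀ i, |τ i| ≤ 1 / 1000)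
    (c : Fin m → ℝ) (hc0 : ∀ i, 0 ≤ c i)
    (hcA : ∀ a ∈ A, ∀ i, F (lab hm) i (J a) = c i)
    (hcC : ∀ t : Fin b, ∀ i, F (lab hm) i (J (cl p q (τ t))) = c i) : False := by
  classical
  obtain ⟨y, hy⟩ : ∃ y : Fin (n + 1) → EuclideanSpace ℝ (Fin D),
      ∀ j x, inner ℝ (y j) x = (J x) j := by
    refine ⟨fun j => ContinuousLinearMap.adjoint J.toContinuousLinearMap
      (EuclideanSpace.single j (1 : ℝ)), ?_⟩
    intro j x
    rw [ContinuousLinearMap.adjoint_inner_left, EuclideanSpace.inner_single_left]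
    simp
  have hdot : ∀ j i, lab hm j = i → ∀ a ∈ A, |inner ℝ (y j) a| ≤ c i := by
    intro j i hji a ha
    rw [hy, ← hcA a ha i]
    exact le_F (lab hm) i _ j hji
  -- total sums
  have hsum1 : ∑ j, ‖y j‖ ^ 2 = D := by
    have h1 : ∀ j, ‖y j‖ ^ 2 = ∑ k, (J (EuclideanSpace.single k (1 : ℝ))) j ^ 2 := by
      intro j
      rw [EuclideanSpace.norm_sq_eq]
      apply Finset.sum_congr rfl
      intro k _
      rw [← hy, EuclideanSpace.inner_single_right]
      simp
    simp only [h1]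
    rw [Finset.sum_comm]
    have h2 : ∀ k, ∑ j, (J (EuclideanSpace.single k (1 : ℝ))) j ^ 2 = 1 := by
      intro k
      have h3 : ‖J (EuclideanSpace.single k (1 : ℝ))‖ ^ 2 = 1 := by
        rw [J.norm_map, PiLp.norm_single]; norm_num
      rw [EuclideanSpace.norm_sq_eq] at h3
      simpa using h3
    simp only [h2]
    simp
  have hsum2 : ∑ j, (inner ℝ (y j) p) ^ 2 = 1 := by
    have h3 : ‖J p‖ ^ 2 = 1 := by
      rw [J.norm_map, np]; norm_num
    rw [EuclideanSpace.norm_sq_eq] at h3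
    simp only [hy]
    simpa using h3
  have htot : ∑ i, ∑ j with lab hm j = i, (‖y j‖ ^ 2 - D * (inner ℝ (y j) p) ^ 2) = 0 := by
    rw [Finset.sum_fiberwise]
    rw [Finset.sum_sub_distrib, ← Finset.mul_sum, hsum1, hsum2]
    ring
  have hneg : ∀ i, 0 < c i →
      ∑ j with lab hm j = i, (‖y j‖ ^ 2 - D * (inner ℝ (y j) p) ^ 2) < 0 := by
    intro i hi
    refine block_neg _ y p q np nq A hA τ hτ hτ1 D ?_ (c i) hi ?_ ?_
    · refine lt_of_le_of_lt ?_ hb
      exact Nat.mul_le_mul_left 17 (card_class hm i)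
    · intro j hj a ha
      rw [Finset.mem_filter] at hj
      exact hdot j i hj.2 a ha
    · intro t
      obtain ⟨j, hj1, hj2⟩ := exists_F (lab hm) i (J (cl p q (τ t))) (by rw [hcC]; exact hi)
      refine ⟨j, ?_, ?_⟩
      · rw [Finset.mem_filter]; exact ⟨Finset.mem_univ _, hj1⟩
      · rw [hy, hj2, hcC]
  have hzero : ∀ i, c i = 0 → ∀ j, lab hm j = i → y j = 0 := by
    intro i hi j hj
    by_contra h0
    obtain ⟨a, ha, h⟩ := hA (y j) h0
    have h1 := hdot j i hj a ha
    rw [hi] at h1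
    have h2 : inner ℝ (y j) a = 0 := abs_nonpos_iff.mp h1
    rw [real_inner_comm, h2, mul_zero] at h
    exact h0 (norm_le_zero_iff.mp h)
  have hle : ∀ i ∈ (Finset.univ : Finset (Fin m)),
      ∑ j with lab hm j = i, (‖y j‖ ^ 2 - D * (inner ℝ (y j) p) ^ 2) ≤ 0 := by
    intro i _
    rcases lt_or_eq_of_le (hc0 i) with h | h
    · exact (hneg i h).le
    · apply le_of_eq
      apply Finset.sum_eq_zero
      intro j hj
      rw [Finset.mem_filter] at hj
      rw [hzero i h.symm j hj.2]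
      simp
  have hall := (Finset.sum_eq_zero_iff_of_nonpos hle).mp htot
  have hc00 : ∀ i, c i = 0 := by
    intro i
    rcases lt_or_eq_of_le (hc0 i) with h | h
    · have := hneg i h
      rw [hall i (Finset.mem_univ i)] at this
      exact absurd this (lt_irrefl _)
    · exact h.symm
  have hy0 : ∀ j, y j = 0 := fun j => hzero (lab hm j) (hc00 _) j rfl
  simp only [hy0, norm_zero] at hsum1
  have : (D : ℝ) = 0 := by rw [← hsum1]; simp
  have h2 : (2 : ℝ) ≤ D := by exact_mod_cast hD2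
  linarith

theorem exists_tau {b : ℕ} (hbpos : 0 < b) :
    ∃ τ : Fin b → ℝ, StrictMono τ ∧ ∀ i, |τ i| ≤ 1 / 1000 := by
  have hbR : (0 : ℝ) < b := by exact_mod_cast hbpos
  refine ⟨fun i => (i : ℝ) / (1000 * b), ?_, ?_⟩
  · intro i j hij
    have : (i : ℝ) < (j : ℝ) := by exact_mod_cast hij
    exact div_lt_div_of_pos_right this (by positivity)
  · intro i
    have h0 : 0 ≤ (i : ℝ) / (1000 * b) := by positivity
    rw [abs_of_nonneg h0]
    have h1 : (i : ℝ) ≤ b := by
      have : (i : ℕ) ≤ b := i.isLt.le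
      exact_mod_cast this
    rw [div_le_div_iff₀ (by positivity) (by norm_num)]
    nlinarith

theorem norm_cl {V : Type*} [NormedAddCommGroup V] [InnerProductSpace ℝ V] {p q : V}
    (np : ‖p‖ = 1) (nq : ‖q‖ = 1) (npq : inner ℝ p q = 0) (t : ℝ) : ‖cl p q t‖ = 1 := by
  have h1 : ‖cl p q t‖ ^ 2 = 1 := by
    unfold cl
    rw [norm_add_sq_real, inner_smul_left, inner_smul_right, npq, norm_smul, norm_smul, np, nq]
    have hpos : 0 < 1 + t ^ 2 := by positivity
    simp only [Real.norm_eq_abs, mul_one, sq_abs, mul_zero, add_zero]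
    field_simp
    ring
  have h0 : 0 ≤ ‖cl p q t‖ := norm_nonneg _
  nlinarith

/-- A set of at most `5 ^ D + b` points without the Knaster property. -/
theorem exists_bad {n m D b : ℕ} (hm : 1 ≤ m) (hD2 : 2 ≤ D) (hDn : D ≤ n + 1)
    (hb : 17 * ((n + 1) / m + 1) < D * b) :
    ∃ S : Finset (Sph n), S.card ≤ 5 ^ D + b ∧ ¬ HasKnasterProperty n m S := by
  classical
  obtain ⟨J⟩ := exists_embedding hDn
  obtain ⟨A, hAc, hA1, hA⟩ := exists_net D
  obtain ⟨p, q, np, nq, npq⟩ : ∃ p q : EuclideanSpace ℝ (Fin D), ‖p‖ = 1 ∧ ‖q‖ = 1 ∧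
      inner ℝ p q = 0 := by
    refine ⟨EuclideanSpace.single ⟨0, by omega⟩ (1 : ℝ),
      EuclideanSpace.single ⟨1, by omega⟩ (1 : ℝ), ?_, ?_, ?_⟩
    · rw [PiLp.norm_single]; norm_num
    · rw [PiLp.norm_single]; norm_num
    · rw [EuclideanSpace.inner_single_left]; simp
  have hbpos : 0 < b := by
    rcases Nat.eq_zero_or_pos b with h | h
    · rw [h, mul_zero] at hb; omega
    · exact h
  obtain ⟨τ, hτ, hτ1⟩ := exists_tau hbpos
  have hJA : ∀ a : A, J a.1 ∈ Metric.sphere (0 : E n) 1 := fun a => by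
    rw [mem_sphere_zero_iff_norm, J.norm_map, hA1 a.1 a.2]
  have hJC : ∀ i : Fin b, J (cl p q (τ i)) ∈ Metric.sphere (0 : E n) 1 := fun i => by
    rw [mem_sphere_zero_iff_norm, J.norm_map, norm_cl np nq npq]
  refine ⟨Finset.univ.image (fun a : A => (⟨J a.1, hJA a⟩ : Sph n)) ∪
    Finset.univ.image (fun i : Fin b => (⟨J (cl p q (τ i)), hJC i⟩ : Sph n)), ?_, ?_⟩
  · refine le_trans (Finset.card_union_le _ _) (Nat.add_le_add ?_ ?_)
    · refine le_trans Finset.card_image_le ?_
      rw [Finset.card_univ, Fintype.card_coe]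
      exact hAc
    · refine le_trans Finset.card_image_le ?_
      rw [Finset.card_univ, Fintype.card_fin]
  · intro hK
    obtain ⟨O, _, hO⟩ := hK (fun s => WithLp.toLp 2 (fun i => F (lab hm) i s.1)) (by
      have h1 : ∀ i, Continuous (fun s : Sph n => F (lab hm) i s.1) := fun i =>
        (continuous_F (lab hm) i).comp continuous_subtype_val
      have h2 : Continuous (fun s : Sph n => (fun i => F (lab hm) i s.1 : Fin m → ℝ)) :=
        continuous_pi h1
      exact (PiLp.continuous_toLp 2 _).comp h2)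
    have hO' : ∀ s : Sph n, s ∈ _ → ∀ t : Sph n, t ∈ _ →
        ∀ i, F (lab hm) i (O s.1) = F (lab hm) i (O t.1) :=
      fun s hs t ht i =>
        congrArg (fun w : EuclideanSpace ℝ (Fin m) => w i) (hO s hs t ht)
    have s0 := Finset.mem_union_right
      (Finset.univ.image (fun a : A => (⟨J a.1, hJA a⟩ : Sph n)))
      (Finset.mem_image_of_mem (fun i : Fin b => (⟨J (cl p q (τ i)), hJC i⟩ : Sph n))
        (Finset.mem_univ (⟨0, hbpos⟩ : Fin b)))
    refine core hm hD2 hb (O.toLinearIsometry.comp J) A hA p q np nq τ hτ hτ1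
      (fun i => F (lab hm) i (O (J (cl p q (τ ⟨0, hbpos⟩))))) (fun i => F_nonneg _ i _) ?_ ?_
    · intro a ha i
      exact hO' _ (Finset.mem_union_left _
        (Finset.mem_image_of_mem _ (Finset.mem_univ (⟨a, ha⟩ : A)))) _ s0 i
    · intro t i
      exact hO' _ (Finset.mem_union_right _
        (Finset.mem_image_of_mem _ (Finset.mem_univ t))) _ s0 i

theorem mono {n m : ℕ} {S T : Finset (Sph n)} (h : S ⊆ T) (hT : HasKnasterProperty n m T) :
    HasKnasterProperty n m S := by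
  intro f hf
  obtain ⟨O, hO, hO'⟩ := hT f hf
  exact ⟨O, hO, fun s hs t ht => hO' s (h hs) t (h ht)⟩

theorem infinite_sph {n : ℕ} (hn : 1 ≤ n) : Infinite (Sph n) := by
  obtain ⟨p, q, np, nq, npq⟩ : ∃ p q : E n, ‖p‖ = 1 ∧ ‖q‖ = 1 ∧ inner ℝ p q = 0 := by
    refine ⟨EuclideanSpace.single ⟨0, by omega⟩ (1 : ℝ),
      EuclideanSpace.single ⟨1, by omega⟩ (1 : ℝ), ?_, ?_, ?_⟩
    · rw [PiLp.norm_single]; norm_num
    · rw [PiLp.norm_single]; norm_num
    · rw [EuclideanSpace.inner_single_left]; simp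
  have hmem : ∀ t : ℝ, cl p q t ∈ Metric.sphere (0 : E n) 1 := fun t => by
    rw [mem_sphere_zero_iff_norm, norm_cl np nq npq]
  apply Infinite.of_injective (fun t : ℝ => (⟨cl p q t, hmem t⟩ : Sph n))
  intro s t h
  have h1 : cl p q s = cl p q t := congrArg Subtype.val h
  have key : ∀ t : ℝ, inner ℝ q (cl p q t) = t * (1 + inner ℝ p (cl p q t)) ∧
      0 < 1 + inner ℝ p (cl p q t) := by
    intro t
    have hpos : 0 < 1 + t ^ 2 := by positivity
    have hpp : inner ℝ p p = 1 := by rw [real_inner_self_eq_norm_sq, np]; norm_num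
    have hqq : inner ℝ q q = 1 := by rw [real_inner_self_eq_norm_sq, nq]; norm_num
    have hqp : inner ℝ q p = 0 := by rw [real_inner_comm]; exact npq
    rw [inner_cl, inner_cl, hpp, hqq, hqp, npq]
    constructor
    · field_simp
      ring
    · have : 1 + ((1 - t ^ 2) * 1 + 2 * t * 0) / (1 + t ^ 2) = 2 / (1 + t ^ 2) := by
        field_simp
        ring
      rw [this]
      positivity
  have h2 := (key s).1
  have h3 := (key t).1
  rw [h1] at h2
  rw [h3] at h2
  exact (mul_right_cancel₀ (key t).2.ne' h2).symm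

theorem log25 : Real.log 25 < 4 := by
  rw [Real.log_lt_iff_lt_exp (by norm_num)]
  have h1 : (2.7182818283 : ℝ) < Real.exp 1 := Real.exp_one_gt_d9
  have h2 : Real.exp 4 = (Real.exp 1) ^ 4 := by
    rw [← Real.exp_nat_mul]; norm_num
  rw [h2]
  calc (25 : ℝ) < (2.7182818283 : ℝ) ^ 4 := by norm_num
    _ < (Real.exp 1) ^ 4 := pow_lt_pow_left₀ h1 (by norm_num) (by norm_num)

/-- The numerical estimate. -/
theorem numeric {n m : ℕ} (hm : 1 ≤ m) (h : (1000 : ℝ) * m ≤ n) :
    ∃ D b : ℕ, 2 ≤ D ∧ D ≤ n + 1 ∧ 17 * ((n + 1) / m + 1) < D * b ∧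
      ((5 ^ D + b : ℕ) : ℝ) ≤ 1000 * ((n : ℝ) / m) / Real.log ((n : ℝ) / m) := by
  have hmR : (0 : ℝ) < m := by exact_mod_cast hm
  set x : ℝ := (n : ℝ) / m with hx
  have hx1000 : 1000 ≤ x := by rw [hx, le_div_iff₀ hmR]; exact h
  set r : ℕ := n / m with hr
  have hrx : (r : ℝ) ≤ x := by rw [hx, hr]; exact Nat.cast_div_le
  have hxr : x < r + 1 := by
    rw [hx, div_lt_iff₀ hmR]
    have : n < (r + 1) * m := by
      have h1 := Nat.div_add_mod n m
      have h2 := Nat.mod_lt n hm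
      rw [hr]
      nlinarith
    exact_mod_cast this
  have hr1000 : 1000 ≤ r := by
    have h1 : (999 : ℝ) < r := by linarith
    have h2 : 999 < r := by exact_mod_cast h1
    omega
  set D : ℕ := Nat.log 25 r with hD
  have hD1 : 25 ^ D ≤ r := Nat.pow_log_le_self 25 (by omega)
  have hD2 : r < 25 ^ (D + 1) := Nat.lt_pow_succ_log_self (by norm_num) r
  have hD3 : 2 ≤ D := by
    rw [hD]
    apply Nat.le_log_of_pow_le (by norm_num)
    omega
  have hDn : D ≤ n + 1 := by
    have h1 : D < 25 ^ D := Nat.lt_pow_self (by norm_num)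
    have h2 : r ≤ n := Nat.div_le_self n m
    omega
  set a : ℕ := 17 * ((n + 1) / m + 1) with ha
  refine ⟨D, a / D + 1, hD3, hDn, Nat.lt_mul_div_succ a (by omega), ?_⟩
  have hDpos : (0 : ℝ) < D := by
    have : 0 < D := by omega
    exact_mod_cast this
  set Lx : ℝ := Real.log x with hL
  have hxpos : 0 < x := by linarith
  have hLpos : 0 < Lx := Real.log_pos (by linarith)
  -- first part
  have h5 : (5 : ℝ) ^ D ≤ 2 * x / Lx := by
    have e1 : ((5 : ℝ) ^ D) ^ 2 ≤ x := by
      rw [← pow_mul, mul_comm, pow_mul]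
      have : ((25 : ℕ) ^ D : ℝ) ≤ r := by exact_mod_cast hD1
      calc ((5 : ℝ) ^ 2) ^ D = ((25 : ℕ) : ℝ) ^ D := by norm_num
        _ ≤ r := this
        _ ≤ x := hrx
    have e2 : (5 : ℝ) ^ D ≤ Real.sqrt x := Real.le_sqrt_of_sq_le e1
    have e3 : Lx ≤ 2 * Real.sqrt x := by
      have : Lx = 2 * Real.log (Real.sqrt x) := by
        rw [Real.log_sqrt hxpos.le, hL]; ring
      rw [this]
      have h6 := Real.log_le_sub_one_of_pos (Real.sqrt_pos.mpr hxpos)
      linarith
    rw [le_div_iff₀ hLpos]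
    have e4 : Real.sqrt x * Real.sqrt x = x := Real.mul_self_sqrt hxpos.le
    have e5 : 0 ≤ Real.sqrt x := Real.sqrt_nonneg x
    calc (5 : ℝ) ^ D * Lx ≤ Real.sqrt x * (2 * Real.sqrt x) :=
          mul_le_mul e2 e3 hLpos.le e5
      _ = 2 * x := by linarith
  -- second part
  have hDL : Lx ≤ 6 * D := by
    have e1 : x < (25 : ℝ) ^ (D + 1) := by
      have : ((r + 1 : ℕ) : ℝ) ≤ ((25 ^ (D + 1) : ℕ) : ℝ) := by exact_mod_cast hD2
      push_cast at this
      linarith
    have e2 : Lx < (D + 1) * Real.log 25 := by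
      have := Real.log_lt_log hxpos e1
      rw [Real.log_pow] at this
      push_cast at this
      exact this
    have e3 : (2 : ℝ) ≤ D := by exact_mod_cast hD3
    have e4 := log25
    nlinarith
  have ha2 : (a : ℝ) ≤ 17 * (x + 2) := by
    have e1 : (n + 1) / m ≤ r + 1 := by
      have : (n + 1) / m ≤ (n + m) / m := Nat.div_le_div_right (by omega)
      rw [Nat.add_div_right n hm] at this
      exact this
    have e2 : (((n + 1) / m : ℕ) : ℝ) ≤ r + 1 := by exact_mod_cast e1
    rw [ha]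
    push_cast
    linarith
  have hb2 : (((a / D + 1 : ℕ)) : ℝ) ≤ 103 * x / Lx + x / Lx := by
    have e1 : ((a / D : ℕ) : ℝ) ≤ a / D := Nat.cast_div_le
    have e2 : (a : ℝ) / D ≤ 103 * x / Lx := by
      rw [div_le_div_iff₀ hDpos hLpos]
      have e3 : 17 * (x + 2) * 6 ≤ 103 * x := by linarith
      calc (a : ℝ) * Lx ≤ (17 * (x + 2)) * (6 * D) :=
            mul_le_mul ha2 hDL hLpos.le (by linarith)
        _ = (17 * (x + 2) * 6) * D := by ring
        _ ≤ 103 * x * D := mul_le_mul_of_nonneg_right e3 hDpos.le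
    have e4 : 1 ≤ x / Lx := by
      rw [le_div_iff₀ hLpos, one_mul]
      have := Real.log_le_sub_one_of_pos hxpos
      linarith
    push_cast
    linarith
  have hfin : 2 * x / Lx + (103 * x / Lx + x / Lx) ≤ 1000 * x / Lx := by
    rw [← add_div, ← add_div]
    apply div_le_div_of_nonneg_right _ hLpos.le
    linarith
  push_cast at hb2 ⊢
  linarith

/-- There is an absolute constant `C` such that whenever `n ≥ C m` and
`k ≥ C (n/m) / log (n/m)`, some set of `k` points of `S^n` does not have the Knaster property for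
continuous maps `S^n → ℝ^m`. -/
theorem result : ∃ C : ℝ, 0 < C ∧ ∀ n m k : ℕ, 1 ≤ m → C * m ≤ n →
    C * ((n : ℝ) / m) / Real.log ((n : ℝ) / m) ≤ k →
      ∃ S : Finset (Sph n), S.card = k ∧ ¬ HasKnasterProperty n m S := by
  refine ⟨1000, by norm_num, ?_⟩
  intro n m k hm hn hk
  obtain ⟨D, b, hD2, hDn, hb, hle⟩ := numeric hm hn
  obtain ⟨S, hS, hbad⟩ := exists_bad hm hD2 hDn hb
  have hcard : S.card ≤ k := by
    have h1 : ((5 ^ D + b : ℕ) : ℝ) ≤ (k : ℝ) := le_trans hle hk
    have h2 : 5 ^ D + b ≤ k := by exact_mod_cast h1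
    exact le_trans hS h2
  have hn1 : 1 ≤ n := by
    have hmR : (1 : ℝ) ≤ m := by exact_mod_cast hm
    have : (1 : ℝ) ≤ n := by linarith
    exact_mod_cast this
  have := infinite_sph hn1
  obtain ⟨T, hST, hT⟩ := Infinite.exists_superset_card_eq S k hcard
  exact ⟨T, hT, fun h => hbad (mono hST h)⟩

end Pool.Agent.Results.MP_045051_co.FewPoints
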