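import Pool.Agent.Lib.MP_045051_co.Quad.Final

/-!
Knaster's problem (Q1) on the sphere `S^2`: a set of at least four points which has the Knaster
property for some `m ≥ 1` consists of exactly four points of one circle, `m = 1`, and the four
angles on the circle satisfy an exceptional integer relation.
-/

set_option autoImplicit false

open scoped BigOperators

namespace Pool.Agent.Results.MP_045051_co.GenericQuadruples

/-- The Euclidean space `ℝ^{n+1}`. -/
abbrev E (n : ℕ) : Type := EuclideanSpace ℝ (Fin (n + 1))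

/-- The unit sphere `S^n` of `ℝ^{n+1}`. -/
abbrev Sph (n : ℕ) : Type := Metric.sphere (0 : E n) 1

/-- The action of a linear isometry of `ℝ^{n+1}` on `S^n`. -/
noncomputable def act {n : ℕ} (O : E n ≃ₗᵢ[ℝ] E n) (s : Sph n) : Sph n :=
  ⟨O s.1, by
    have h : ‖s.1‖ = 1 := norm_eq_of_mem_sphere s
    rw [mem_sphere_zero_iff_norm, LinearIsometryEquiv.norm_map, h]⟩

/-- `O` is a rotation, i.e. an element of `SO(n+1)`. -/
def IsRotation {n : ℕ} (O : E n ≃ₗᵢ[ℝ] E n) : Prop :=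
  LinearMap.det (O.toLinearEquiv : E n →ₗ[ℝ] E n) = 1

/-- The pair `(S, m)` has the Knaster property: for every continuous `f : S^n → ℝ^m` there is a
rotation `O` such that `f` takes the same value at all the points `O s`, `s ∈ S`. -/
def HasKnasterProperty (n m : ℕ) (S : Finset (Sph n)) : Prop :=
  ∀ f : Sph n → EuclideanSpace ℝ (Fin m), Continuous f →
    ∃ O : E n ≃ₗᵢ[ℝ] E n, IsRotation O ∧
      ∀ s ∈ S, ∀ t ∈ S, f (act O s) = f (act O t)

open Pool.Agent.Lib.MP_045051_co.Quad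

/-- real valued test maps -/
theorem test_one {m : ℕ} (hm : 1 ≤ m) {S : Finset (Sph 2)} (hK : HasKnasterProperty 2 m S)
    (f : (Fin 3 → ℝ) → ℝ) (hf : Continuous f) :
    ∃ O : E 2 ≃ₗᵢ[ℝ] E 2, IsRotation O ∧ ∀ s ∈ S, ∀ t ∈ S,
      f (fun i => O s.1 i) = f (fun i => O t.1 i) := by
  obtain ⟨O, hO, h⟩ := hK (fun x => WithLp.toLp 2 fun _ => f (fun i => x.1 i)) (by fun_prop)
  refine ⟨O, hO, fun s hs t ht => ?_⟩
  have h1 := congrArg (fun y : EuclideanSpace ℝ (Fin m) => y ⟨0, hm⟩) (h s hs t ht)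
  exact h1

/-- test maps with two components -/
theorem test_two {m : ℕ} (hm : 2 ≤ m) {S : Finset (Sph 2)} (hK : HasKnasterProperty 2 m S) :
    ∃ O : E 2 ≃ₗᵢ[ℝ] E 2, ∀ s ∈ S, ∀ t ∈ S, O s.1 0 = O t.1 0 ∧ O s.1 1 = O t.1 1 := by
  obtain ⟨O, -, h⟩ := hK (fun x => WithLp.toLp 2 fun i => if (i : ℕ) = 0 then x.1 0 else x.1 1)
    (by
      refine (PiLp.continuous_toLp 2 _).comp (continuous_pi fun i => ?_)
      split_ifs <;> fun_prop)
  refine ⟨O, fun s hs t ht => ⟨?_, ?_⟩⟩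
  · have h1 := congrArg (fun y : EuclideanSpace ℝ (Fin m) => y ⟨0, by omega⟩) (h s hs t ht)
    exact h1
  · have h1 := congrArg (fun y : EuclideanSpace ℝ (Fin m) => y ⟨1, by omega⟩) (h s hs t ht)
    exact h1

theorem sum_sq (O : E 2 ≃ₗᵢ[ℝ] E 2) (s : Sph 2) :
    O s.1 0 ^ 2 + O s.1 1 ^ 2 + O s.1 2 ^ 2 = 1 := by
  have h1 : ‖O s.1‖ = 1 := by
    rw [LinearIsometryEquiv.norm_map]
    exact norm_eq_of_mem_sphere s
  have h2 := EuclideanSpace.norm_sq_eq (O s.1)
  rw [h1, Fin.sum_univ_three] at h2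
  simp only [Real.norm_eq_abs, sq_abs] at h2
  linarith

theorem ext_of (O : E 2 ≃ₗᵢ[ℝ] E 2) {s t : Sph 2} (h0 : O s.1 0 = O t.1 0)
    (h1 : O s.1 1 = O t.1 1) (h2 : O s.1 2 = O t.1 2) : s = t := by
  apply Subtype.ext
  apply O.injective
  ext i
  fin_cases i
  · exact h0
  · exact h1
  · exact h2

/-- for `m ≥ 2` there are at most two points -/
theorem card_le_two {m : ℕ} (hm : 2 ≤ m) {S : Finset (Sph 2)} (hK : HasKnasterProperty 2 m S) :
    S.card ≤ 2 := by
  by_contra hcon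
  push Not at hcon
  obtain ⟨a, ha, b, hb, c, hc, hab, hac, hbc⟩ := Finset.two_lt_card.1 hcon
  obtain ⟨O, hO⟩ := test_two hm hK
  have ea := sum_sq O a
  have eb := sum_sq O b
  have ec := sum_sq O c
  have h1 := hO a ha b hb
  have h2 := hO a ha c hc
  rw [h1.1, h1.2] at ea
  have e1 : O a.1 2 ^ 2 = O b.1 2 ^ 2 := by linarith
  have ea' := sum_sq O a
  rw [h2.1, h2.2] at ea'
  have e2 : O a.1 2 ^ 2 = O c.1 2 ^ 2 := by linarith
  rcases sq_eq_sq_iff_eq_or_eq_neg.1 e1 with h3 | h3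
  · exact hab (ext_of O h1.1 h1.2 h3)
  · rcases sq_eq_sq_iff_eq_or_eq_neg.1 e2 with h4 | h4
    · exact hac (ext_of O h2.1 h2.2 h4)
    · exact hbc (ext_of O (h1.1.symm.trans h2.1) (h1.2.symm.trans h2.2) (by linarith))

/-- **Knaster's problem on `S^2`.** Let `S ⊂ S^2` be a set of at least four points and `m ≥ 1`,
and assume that `(S, m)` has the Knaster property. Then `m = 1`, `S` has exactly four points, and
for some isometry `O` the points of `O S` lie in a horizontal plane `x_3 = h`, `|h| < 1`; moreover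
for every labelling `p 0, …, p 3` of the four points and all angles `θ 0, …, θ 3` of the points
`O (p j)` on their circle there are integers `k 0, …, k 3`, not all zero, with
`k 0 + k 1 + k 2 + k 3 = 0` and `k 0 θ 0 + … + k 3 θ 3 ∈ 2πℤ`, which are not just a multiple
`(a, a, -a, -a)` of the relation `θ 0 + θ 1 - θ 2 - θ 3 ∈ 2πℤ` (isosceles trapezoid). -/
theorem result (m : ℕ) (hm : 1 ≤ m) (S : Finset (Sph 2)) (hS : 4 ≤ S.card)
    (hK : HasKnasterProperty 2 m S) :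
    m = 1 ∧ S.card = 4 ∧
      ∃ (O : E 2 ≃ₗᵢ[ℝ] E 2) (h : ℝ), IsRotation O ∧ |h| < 1 ∧ (∀ s ∈ S, O s.1 2 = h) ∧
        ∀ (p : Fin 4 → Sph 2) (θ : Fin 4 → ℝ), Function.Injective p → (∀ j, p j ∈ S) →
          (∀ j, O (p j).1 0 = √(1 - h ^ 2) * Real.cos (θ j) ∧
            O (p j).1 1 = √(1 - h ^ 2) * Real.sin (θ j)) →
          ∃ k : Fin 4 → ℤ, k ≠ 0 ∧ ∑ j, k j = 0 ∧
            (∃ a : ℤ, ∑ j, (k j : ℝ) * θ j = 2 * Real.pi * a) ∧
            ¬ (k 0 = k 1 ∧ k 2 = k 3 ∧ ∃ b : ℤ, θ 0 + θ 1 - θ 2 - θ 3 = 2 * Real.pi * b) := by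
  have hm1 : m = 1 := by
    by_contra hne
    have := card_le_two (by omega : 2 ≤ m) hK
    omega
  -- the plane
  obtain ⟨O, hOrot, hO⟩ := test_one hm hK (fun x => x 2) (continuous_apply 2)
  obtain ⟨s0, hs0⟩ : S.Nonempty := Finset.card_pos.1 (by omega)
  obtain ⟨h, hh⟩ : ∃ h : ℝ, ∀ s ∈ S, O s.1 2 = h := ⟨O s0.1 2, fun s hs => hO s hs s0 hs0⟩
  have hsq : ∀ s ∈ S, O s.1 0 ^ 2 + O s.1 1 ^ 2 = 1 - h ^ 2 := by
    intro s hs
    have := sum_sq O s
    rw [hh s hs] at this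
    linarith
  have hlt : 0 < 1 - h ^ 2 := by
    by_contra hcon
    push Not at hcon
    obtain ⟨a, ha, b, hb, hab⟩ := Finset.one_lt_card.1 (by omega : 1 < S.card)
    have e1 := hsq a ha
    have e2 := hsq b hb
    have a0 : O a.1 0 = 0 := by nlinarith [sq_nonneg (O a.1 0), sq_nonneg (O a.1 1)]
    have a1 : O a.1 1 = 0 := by nlinarith [sq_nonneg (O a.1 0), sq_nonneg (O a.1 1)]
    have b0 : O b.1 0 = 0 := by nlinarith [sq_nonneg (O b.1 0), sq_nonneg (O b.1 1)]
    have b1 : O b.1 1 = 0 := by nlinarith [sq_nonneg (O b.1 0), sq_nonneg (O b.1 1)]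
    exact hab (ext_of O (a0.trans b0.symm) (a1.trans b1.symm) ((hh a ha).trans (hh b hb).symm))
  obtain ⟨r, hrdef⟩ : ∃ r, r = √(1 - h ^ 2) := ⟨_, rfl⟩
  have hr : 0 < r := by rw [hrdef]; exact Real.sqrt_pos.2 hlt
  have hr2 : r ^ 2 = 1 - h ^ 2 := by rw [hrdef]; exact Real.sq_sqrt hlt.le
  have habs : |h| < 1 := by
    rw [← sq_lt_one_iff_abs_lt_one]
    linarith
  have hcard : S.card = 4 := by
    by_contra hne
    have h5 : 5 ≤ S.card := by omega
    obtain ⟨s, hs, hsinj⟩ : ∃ s : Fin 5 → Sph 2, (∀ j, s j ∈ S) ∧ Function.Injective s :=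
      ⟨fun j => (S.equivFin.symm (Fin.castLE h5 j) : Sph 2), fun j => (S.equivFin.symm _).2,
        fun i j hij => Fin.castLE_injective h5 (S.equivFin.symm.injective (Subtype.ext hij))⟩
    obtain ⟨z, hz⟩ : ∃ z : Fin 5 → ℂ, ∀ j, z j = ⟨O (s j).1 0 / r, O (s j).1 1 / r⟩ :=
      ⟨_, fun _ => rfl⟩
    have hz0 : ∀ j, O (s j).1 0 = r * (z j).re := fun j => by
      rw [hz]
      field_simp
    have hz1 : ∀ j, O (s j).1 1 = r * (z j).im := fun j => by
      rw [hz]
      field_simp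
    have hzn : ∀ j, ‖z j‖ = 1 := by
      intro j
      have h1 : ‖z j‖ ^ 2 = 1 := by
        rw [← Complex.normSq_eq_norm_sq, hz, Complex.normSq_mk]
        have := hsq (s j) (hs j)
        rw [← hr2] at this
        field_simp
        linarith
      exact (pow_eq_one_iff_of_nonneg (norm_nonneg _) two_ne_zero).1 h1
    have hzinj : Function.Injective z := by
      intro i j hij
      apply hsinj
      exact ext_of O (by rw [hz0, hz0, hij]) (by rw [hz1, hz1, hij])
        ((hh _ (hs i)).trans (hh _ (hs j)).symm)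
    obtain ⟨f, hf, hfM⟩ := five_sphere O hr (fun j => (s j).1) z hzn hzinj hz0 hz1
      (fun j => hh _ (hs j))
    obtain ⟨T, -, hT⟩ := test_one hm hK f hf
    exact hfM T (f fun i => T (s 0).1 i) fun j => hT (s j) (hs j) (s 0) (hs 0)
  refine ⟨hm1, hcard, O, h, hOrot, habs, hh, ?_⟩
  intro p θ hp hpS hθ
  by_contra hcon
  push Not at hcon
  rw [← hrdef] at hθ
  obtain ⟨z, hz⟩ : ∃ z : Fin 4 → ℂ, ∀ j, z j = Complex.exp (θ j * Complex.I) :=
    ⟨_, fun _ => rfl⟩
  have hre : ∀ j, (z j).re = Real.cos (θ j) := fun j => by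
    rw [hz, Complex.exp_ofReal_mul_I_re]
  have him : ∀ j, (z j).im = Real.sin (θ j) := fun j => by
    rw [hz, Complex.exp_ofReal_mul_I_im]
  have hz0 : ∀ j, O (p j).1 0 = r * (z j).re := fun j => by rw [hre, (hθ j).1]
  have hz1 : ∀ j, O (p j).1 1 = r * (z j).im := fun j => by rw [him, (hθ j).2]
  have hzn : ∀ j, ‖z j‖ = 1 := fun j => by rw [hz, Complex.norm_exp_ofReal_mul_I]
  have hzinj : Function.Injective z := by
    intro i j hij
    apply hp
    exact ext_of O (by rw [hz0, hz0, hij]) (by rw [hz1, hz1, hij])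
      ((hh _ (hpS i)).trans (hh _ (hpS j)).symm)
  have hpow : ∀ k : Fin 4 → ℤ, ∏ j, z j ^ k j =
      Complex.exp (((∑ j, (k j : ℝ) * θ j : ℝ) : ℂ) * Complex.I) := by
    intro k
    rw [Complex.ofReal_sum, Finset.sum_mul, Complex.exp_sum]
    refine Finset.prod_congr rfl fun j _ => ?_
    rw [hz, ← Complex.exp_int_mul]
    congr 1
    push_cast
    ring
  have hexp : ∀ x : ℝ, Complex.exp ((x : ℂ) * Complex.I) = 1 → ∃ a : ℤ, x = 2 * Real.pi * a := by
    intro x hx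
    obtain ⟨a, ha⟩ := Complex.exp_eq_one_iff.1 hx
    refine ⟨a, ?_⟩
    have h1 := congrArg Complex.im ha
    simp only [Complex.mul_im, Complex.ofReal_re, Complex.I_im, mul_one, Complex.ofReal_im,
      Complex.I_re, mul_zero, add_zero, Complex.intCast_re, Complex.mul_re, Complex.re_ofNat,
      Complex.im_ofNat, sub_zero, Complex.intCast_im, zero_mul] at h1
    linarith
  have hG : Generic z := by
    intro k hk
    by_cases hk0 : k = 0
    · exact Or.inl hk0
    · right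
      have h1 := hk.2
      rw [hpow] at h1
      obtain ⟨a, ha⟩ := hexp _ h1
      obtain ⟨e1, e2, b, hb⟩ := hcon k hk0 hk.1 ⟨a, ha⟩
      refine ⟨?_, e1, e2⟩
      rw [hz, hz, hz, hz, ← Complex.exp_add, ← Complex.exp_add]
      rw [Complex.exp_eq_exp_iff_exists_int]
      refine ⟨b, ?_⟩
      have hb' : ((θ 0 + θ 1 - θ 2 - θ 3 : ℝ) : ℂ) = ((2 * Real.pi * b : ℝ) : ℂ) := by rw [hb]
      push_cast at hb'
      linear_combination Complex.I * hb'
  obtain ⟨f, hf, hfM⟩ := four_sphere O hr (fun j => (p j).1) z hzn hzinj hG hz0 hz1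
    (fun j => hh _ (hpS j))
  obtain ⟨T, -, hT⟩ := test_one hm hK f hf
  exact hfM T (f fun i => T (p 0).1 i) fun j => hT (p j) (hpS j) (p 0) (hpS 0)

end Pool.Agent.Results.MP_045051_co.GenericQuadruples
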