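import Pool.Agent.Lib.MP_045051_co.Pent.Topo
import Pool.Agent.Lib.MP_045051_co.Pent.Geo
import Pool.Agent.Lib.MP_045051_co.Pent.Iso

/-!
Knaster's problem (Q1), a positive result for real valued maps: four of the five vertices of a
regular pentagon inscribed in any circle of `S^n`, `n ≥ 2`, have the Knaster property.
-/

set_option autoImplicit false

open scoped BigOperators Matrix

namespace Pool.Agent.Results.MP_045051_co.PentagonVertices

/-- The Euclidean space `ℝ^{n+1}`. -/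
abbrev E (n : ℕ) : Type := EuclideanSpace ℝ (Fin (n + 1))

/-- The unit sphere `S^n` of `ℝ^{n+1}`. -/
abbrev Sph (n : ℕ) : Type := Metric.sphere (0 : E n) 1

/-- The action of a linear isometry of `ℝ^{n+1}` on `S^n`. -/
noncomputable def act {n : ℕ} (O : E n ≃ₗᵢ[ℝ] E n) (s : Sph n) : Sph n :=
  ⟨O s.1, by
    have h : ‖s.1‖ = 1 := norm_eq_of_mem_sphere s
    rw [mem_sphere_zero_iff_norm, LinearIsometryEquiv.norm_map, h]⟩

/-- `O` is a rotation, i.e. an element of `SO(n+1)`. -/
def IsRotation {n : ℕ} (O : E n ≃ₗᵢ[ℝ] E n) : Prop :=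
  LinearMap.det (O.toLinearEquiv : E n →ₗ[ℝ] E n) = 1

/-- The pair `(S, m)` has the Knaster property: for every continuous `f : S^n → ℝ^m` there is a
rotation `O` such that `f` takes the same value at all the points `O s`, `s ∈ S`. -/
def HasKnasterProperty (n m : ℕ) (S : Finset (Sph n)) : Prop :=
  ∀ f : Sph n → EuclideanSpace ℝ (Fin m), Continuous f →
    ∃ O : E n ≃ₗᵢ[ℝ] E n, IsRotation O ∧
      ∀ s ∈ S, ∀ t ∈ S, f (act O s) = f (act O t)

open Pool.Agent.Lib.MP_045051_co.Pent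

theorem angles {k j : ℕ} (hk : k ≤ 4) (hj : j ≤ 4)
    (hc : Real.cos (2 * Real.pi * k / 5) = Real.cos (2 * Real.pi * j / 5))
    (hs : Real.sin (2 * Real.pi * k / 5) = Real.sin (2 * Real.pi * j / 5)) : k = j := by
  have h1 : Real.cos (2 * Real.pi * k / 5 - 2 * Real.pi * j / 5) = 1 := by
    rw [Real.cos_sub, hc, hs]
    linear_combination Real.sin_sq_add_cos_sq (2 * Real.pi * j / 5)
  obtain ⟨N, hN⟩ := (Real.cos_eq_one_iff _).1 h1
  have hpi := Real.pi_pos
  have h2 : ((k : ℝ) - j) = 5 * N := by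
    have h3 : (2 * Real.pi) * (((k : ℝ) - j) - 5 * N) = 0 := by linear_combination (-5) * hN
    rcases mul_eq_zero.1 h3 with h4 | h4
    · exact absurd h4 (by positivity)
    · linarith
  have h5 : (k : ℤ) - j = 5 * N := by exact_mod_cast h2
  omega

/-- **Four vertices of a regular pentagon.** Let `n ≥ 2`, let `c + r (cos t) u + r (sin t) v` be
any circle of radius `r > 0` on `S^n` (`u, v` orthonormal, `c` orthogonal to `u` and `v`,
`|c|^2 + r^2 = 1`), and let `S` be the set of the four points of this circle with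
`t = 2 π k / 5`, `k = 1, 2, 3, 4`. Then `S` has four points and `(S, 1)` has the Knaster
property. -/
theorem result (n : ℕ) (hn : 2 ≤ n) (c u v : E n) (r : ℝ) (hu : ‖u‖ = 1) (hv : ‖v‖ = 1)
    (huv : inner ℝ u v = 0) (hcu : inner ℝ c u = 0) (hcv : inner ℝ c v = 0) (hr : 0 < r)
    (hcr : ‖c‖ ^ 2 + r ^ 2 = 1) (S : Finset (Sph n))
    (hS : ∀ s : Sph n, s ∈ S ↔ ∃ k : ℕ, 1 ≤ k ∧ k ≤ 4 ∧
      (s : E n) = c + (r * Real.cos (2 * Real.pi * k / 5)) • u +
        (r * Real.sin (2 * Real.pi * k / 5)) • v) :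
    S.card = 4 ∧ HasKnasterProperty n 1 S := by
  classical
  have hpi := Real.pi_pos
  obtain ⟨w, hw, huw, hvw, hcw⟩ := exists_third hn hcu hcv
  obtain ⟨h, hh⟩ : ∃ h, h = ‖c‖ := ⟨_, rfl⟩
  rw [← hh] at hcr hcw
  have hrh : r ^ 2 + h ^ 2 = 1 := by linarith
  obtain ⟨A, hAdef⟩ : ∃ A, A = colM u v w := ⟨_, rfl⟩
  have hA : Aᵀ * A = 1 := by
    rw [hAdef]
    exact colM_orth hu hv hw huv huw hvw
  have hpt : ∀ x : ℝ, c + (r * Real.cos x) • u + (r * Real.sin x) • v =
      (WithLp.toLp 2 (A *ᵥ ![r * Real.cos x, r * Real.sin x, h]) : E n) := by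
    intro x
    rw [hAdef, colM_mulVec, ← hcw]
    abel
  have hmem : ∀ θ ψ φ x : ℝ, (WithLp.toLp 2 (A *ᵥ Pf r h θ ψ φ x) : E n) ∈
      Metric.sphere (0 : E n) 1 := by
    intro θ ψ φ x
    rw [mem_sphere_zero_iff_norm]
    have h1 := norm_emb hA (Pf r h θ ψ φ x)
    rw [Pf_norm hrh] at h1
    exact (pow_eq_one_iff_of_nonneg (norm_nonneg _) two_ne_zero).1 h1
  constructor
  · -- the cardinality
    have hmem0 : ∀ x : ℝ, c + (r * Real.cos x) • u + (r * Real.sin x) • v ∈
        Metric.sphere (0 : E n) 1 := by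
      intro x
      rw [hpt]
      have h1 := hmem 0 0 0 x
      rw [← Rm_mulVec] at h1
      rw [mem_sphere_zero_iff_norm]
      have h2 := norm_emb hA (![r * Real.cos x, r * Real.sin x, h])
      have h3 : (![r * Real.cos x, r * Real.sin x, h] : Fin 3 → ℝ) 0 ^ 2 +
          (![r * Real.cos x, r * Real.sin x, h] : Fin 3 → ℝ) 1 ^ 2 +
          (![r * Real.cos x, r * Real.sin x, h] : Fin 3 → ℝ) 2 ^ 2 = 1 := by
        simp only [Matrix.cons_val_zero, Matrix.cons_val_one, Matrix.cons_val]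
        linear_combination r ^ 2 * Real.sin_sq_add_cos_sq x + hrh
      rw [h3] at h2
      exact (pow_eq_one_iff_of_nonneg (norm_nonneg _) two_ne_zero).1 h2
    obtain ⟨p, hp⟩ : ∃ p : Fin 4 → Sph n, ∀ k, ((p k : Sph n) : E n) =
        c + (r * Real.cos (2 * Real.pi * ((k : ℕ) + 1 : ℕ) / 5)) • u +
          (r * Real.sin (2 * Real.pi * ((k : ℕ) + 1 : ℕ) / 5)) • v :=
      ⟨fun k => ⟨_, hmem0 _⟩, fun _ => rfl⟩
    have hpinj : Function.Injective p := by
      intro k j hkj
      have h1 : ((p k : Sph n) : E n) = p j := by rw [hkj]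
      rw [hp, hp] at h1
      have hinu : ∀ x y : ℝ, inner ℝ (c + x • u + y • v) u = x := by
        intro x y
        rw [inner_add_left, inner_add_left, inner_smul_left, inner_smul_left, hcu,
          real_inner_self_eq_norm_sq, hu, real_inner_comm, huv]
        simp
      have hinv : ∀ x y : ℝ, inner ℝ (c + x • u + y • v) v = y := by
        intro x y
        rw [inner_add_left, inner_add_left, inner_smul_left, inner_smul_left, hcv,
          real_inner_self_eq_norm_sq, hv, huv]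
        simp
      have h2 := congrArg (fun z : E n => inner ℝ z u) h1
      have h3 := congrArg (fun z : E n => inner ℝ z v) h1
      simp only [hinu] at h2
      simp only [hinv] at h3
      have h4 := angles (k := (k : ℕ) + 1) (j := (j : ℕ) + 1) (by omega) (by omega)
        (mul_left_cancel₀ hr.ne' h2) (mul_left_cancel₀ hr.ne' h3)
      exact Fin.ext (by omega)
    have hSe : S = Finset.univ.image p := by
      ext s
      rw [hS, Finset.mem_image]
      constructor
      · rintro ⟨k, hk1, hk4, hs⟩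
        refine ⟨⟨k - 1, by omega⟩, Finset.mem_univ _, ?_⟩
        apply Subtype.ext
        rw [hp, hs]
        have : ((⟨k - 1, by omega⟩ : Fin 4) : ℕ) + 1 = k := by
          simp only
          omega
        rw [this]
      · rintro ⟨k, -, rfl⟩
        exact ⟨(k : ℕ) + 1, by omega, by omega, hp k⟩
    rw [hSe, Finset.card_image_of_injective _ hpinj]
    rfl
  · intro F hF
    obtain ⟨P, hP⟩ : ∃ P : ℝ → ℝ → ℝ → ℝ → Sph n, ∀ θ ψ φ x,
        ((P θ ψ φ x : Sph n) : E n) = WithLp.toLp 2 (A *ᵥ Pf r h θ ψ φ x) :=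
      ⟨fun θ ψ φ x => ⟨_, hmem θ ψ φ x⟩, fun _ _ _ _ => rfl⟩
    have hPc : ∀ x, Continuous fun p : ℝ × ℝ × ℝ => P p.1 p.2.1 p.2.2 x := by
      intro x
      rw [Topology.IsEmbedding.subtypeVal.continuous_iff]
      have e : (Subtype.val ∘ fun p : ℝ × ℝ × ℝ => P p.1 p.2.1 p.2.2 x) =
          fun p : ℝ × ℝ × ℝ => (WithLp.toLp 2 (A *ᵥ Pf r h p.1 p.2.1 p.2.2 x) : E n) := by
        funext p
        exact hP _ _ _ _
      rw [e]
      refine (PiLp.continuous_toLp 2 _).comp ?_
      exact Continuous.matrix_mulVec continuous_const (Pf_continuous r h x)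
    have hPeq : ∀ {θ ψ φ x θ' ψ' φ' x'}, Pf r h θ ψ φ x = Pf r h θ' ψ' φ' x' →
        P θ ψ φ x = P θ' ψ' φ' x' := by
      intro θ ψ φ x θ' ψ' φ' x' he
      apply Subtype.ext
      rw [hP, hP, he]
    obtain ⟨Φ, hΦ⟩ : ∃ Φ : ℝ → ℝ → ℝ → ZMod 5 → ℝ, ∀ θ ψ φ k, Φ θ ψ φ k =
        F (P θ ψ φ (4 * Real.pi * (k.val : ℝ) / 5)) 0 := ⟨_, fun _ _ _ _ => rfl⟩
    have hΦc : Continuous fun p : ℝ × ℝ × ℝ => Φ p.1 p.2.1 p.2.2 := by
      refine continuous_pi fun k => ?_
      have e : (fun p : ℝ × ℝ × ℝ => Φ p.1 p.2.1 p.2.2 k) =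
          fun p => F (P p.1 p.2.1 p.2.2 (4 * Real.pi * (k.val : ℝ) / 5)) 0 := by
        funext p
        exact hΦ _ _ _ _
      rw [e]
      have h1 := hF.comp (hPc (4 * Real.pi * (k.val : ℝ) / 5))
      exact ((continuous_apply (0 : Fin 1)).comp (PiLp.continuous_ofLp 2 _)).comp h1
    have hxval : ∀ (k : ZMod 5) (a : ℤ), (a : ZMod 5) = 2 * k → ∀ θ ψ φ,
        Pf r h θ ψ φ (2 * Real.pi * a / 5) = Pf r h θ ψ φ (4 * Real.pi * (k.val : ℝ) / 5) := by
      intro k a hak θ ψ φ
      have h1 : (((a - 2 * (k.val : ℤ) : ℤ)) : ZMod 5) = 0 := by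
        push_cast
        rw [hak, ZMod.natCast_zmod_val, sub_self]
      obtain ⟨N, hN⟩ := (ZMod.intCast_zmod_eq_zero_iff_dvd _ 5).1 h1
      have h2 : (a : ℝ) - 2 * (k.val : ℝ) = 5 * N := by exact_mod_cast hN
      have e : 2 * Real.pi * a / 5 = 4 * Real.pi * (k.val : ℝ) / 5 + N * (2 * Real.pi) := by
        linear_combination (2 * Real.pi / 5) * h2
      rw [e, Pf_x]
    obtain ⟨θ, ψ, φ, m, hmain⟩ := topo Φ hΦc
      (by
        intro θ ψ φ
        funext k
        rw [hΦ, hΦ, hPeq (Pf_theta r h θ ψ φ _)])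
      (by
        intro θ φ
        funext k
        rw [hΦ, hΦ, hPeq (Pf_zero r h θ φ 0 _)])
      (by
        intro θ φ
        funext k
        rw [hΦ, hΦ, hPeq (Pf_top r h θ 0 φ _)])
      (by
        intro θ ψ k
        have hp : P (θ + 2 * Real.pi / 5) ψ (2 * Real.pi / 5) (4 * Real.pi * (k.val : ℝ) / 5) =
            P θ ψ 0 (4 * Real.pi * ((k + 1).val : ℝ) / 5) := by
          apply hPeq
          have e1 := Pf_shift r h θ ψ 0 (4 * Real.pi * (k.val : ℝ) / 5) (2 * Real.pi / 5)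
          rw [zero_add] at e1
          rw [e1]
          have h1 := hxval (k + 1) (2 * (k.val : ℤ) + 2) (by
            push_cast
            rw [ZMod.natCast_zmod_val]
            ring) θ ψ 0
          rw [← h1]
          congr 1
          push_cast
          ring
        rw [hΦ, hΦ, hp])
    obtain ⟨τ, hτ⟩ : ∃ τ : ℝ, τ = 2 * Real.pi * (m.val : ℝ) / 5 := ⟨_, rfl⟩
    have hRo : (Rm (θ + τ) ψ (φ + τ))ᵀ * Rm (θ + τ) ψ (φ + τ) = 1 := Rq_orth (Rm_unit _ _ _)
    have hRd : (Rm (θ + τ) ψ (φ + τ)).det = 1 := Rq_det (Rm_unit _ _ _)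
    refine ⟨isoOf (extM A (Rm (θ + τ) ψ (φ + τ))) (extM_orth hA hRo), ?_, ?_⟩
    · unfold IsRotation
      rw [isoOf_det, extM_det hA, hRd]
    · have key : ∀ s ∈ S, ∃ k : ZMod 5, k ≠ m ∧
          F (act (isoOf (extM A (Rm (θ + τ) ψ (φ + τ))) (extM_orth hA hRo)) s) 0 =
            Φ θ ψ φ k := by
        intro s hs
        obtain ⟨k, hk1, hk4, hsk⟩ := (hS s).1 hs
        refine ⟨3 * (k : ZMod 5) + m, ?_, ?_⟩
        · intro hcon
          have h3 : (3 : ZMod 5) * (k : ZMod 5) = 0 := by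
            linear_combination hcon
          interval_cases k <;> exact absurd h3 (by decide)
        · have hp : act (isoOf (extM A (Rm (θ + τ) ψ (φ + τ))) (extM_orth hA hRo)) s =
              P θ ψ φ (4 * Real.pi * ((3 * (k : ZMod 5) + m).val : ℝ) / 5) := by
            apply Subtype.ext
            rw [hP]
            show isoOf (extM A (Rm (θ + τ) ψ (φ + τ))) (extM_orth hA hRo) (s : E n) = _
            rw [hsk, hpt, isoOf_apply]
            show (WithLp.toLp 2 (extM A (Rm (θ + τ) ψ (φ + τ)) *ᵥ (A *ᵥ _)) : E n) = _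
            rw [extM_mulVec hA, Rm_mulVec, Pf_shift]
            have h1 := hxval (3 * (k : ZMod 5) + m) ((k : ℤ) + 2 * (m.val : ℤ)) (by
              push_cast
              rw [ZMod.natCast_zmod_val]
              have h5 : (5 : ZMod 5) = 0 := by decide
              linear_combination (-(k : ZMod 5)) * h5) θ ψ φ
            rw [← h1]
            congr 3
            rw [hτ]
            push_cast
            ring
          rw [hΦ, hp]
      intro s hs t ht
      obtain ⟨k, hk, hks⟩ := key s hs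
      obtain ⟨j, hj, hjt⟩ := key t ht
      ext i
      have hi : i = 0 := Subsingleton.elim _ _
      rw [hi, hks, hjt]
      exact hmain k j hk hj

end Pool.Agent.Results.MP_045051_co.PentagonVertices
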