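import Pool.Agent.Lib.MP_045051_co.Simplex

/-!
Knaster's problem (Q1), real valued maps: for `n = 6` and for every `n ≥ 8` there is a set `S` of
`n + 1` points of `S^n`, lying on one great circle, without the Knaster property for `m = 1`
(hence for every `m ≥ 1`).
-/

namespace Pool.Agent.Results.MP_045051_co.SmallSpheres

/-- The Euclidean space `ℝ^{n+1}`. -/
abbrev E (n : ℕ) : Type := EuclideanSpace ℝ (Fin (n + 1))

/-- The unit sphere `S^n` of `ℝ^{n+1}`. -/
abbrev Sph (n : ℕ) : Type := Metric.sphere (0 : E n) 1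

/-- The action of a linear isometry of `ℝ^{n+1}` on `S^n`. -/
noncomputable def act {n : ℕ} (O : E n ≃ₗᵢ[ℝ] E n) (s : Sph n) : Sph n :=
  ⟨O s.1, by
    have h : ‖s.1‖ = 1 := norm_eq_of_mem_sphere s
    rw [mem_sphere_zero_iff_norm, LinearIsometryEquiv.norm_map, h]⟩

/-- `O` is a rotation, i.e. an element of `SO(n+1)`. -/
def IsRotation {n : ℕ} (O : E n ≃ₗᵢ[ℝ] E n) : Prop :=
  LinearMap.det (O.toLinearEquiv : E n →ₗ[ℝ] E n) = 1

/-- The pair `(S, m)` has the Knaster property: for every continuous `f : S^n → ℝ^m` there is a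
rotation `O` such that `f` takes the same value at all the points `O s`, `s ∈ S`. -/
def HasKnasterProperty (n m : ℕ) (S : Finset (Sph n)) : Prop :=
  ∀ f : Sph n → EuclideanSpace ℝ (Fin m), Continuous f →
    ∃ O : E n ≃ₗᵢ[ℝ] E n, IsRotation O ∧
      ∀ s ∈ S, ∀ t ∈ S, f (act O s) = f (act O t)

open Pool.Agent.Lib.MP_045051_co.Simplex

/-- For `n = 6` and all `n ≥ 8` there are `n + 1` points of `S^n`, all on one great circle, which
do not have the Knaster property for any `m ≥ 1`. -/
theorem result (n : ℕ) (hn : n = 6 ∨ 8 ≤ n) :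
    ∃ S : Finset (Sph n), S.card = n + 1 ∧
      (∃ V : Submodule ℝ (E n), Module.finrank ℝ V = 2 ∧ ∀ s ∈ S, (s : E n) ∈ V) ∧
      ∀ m : ℕ, 1 ≤ m → ¬ HasKnasterProperty n m S := by
  classical
  have hn1 : 1 < n + 1 := by omega
  set p : E n := EuclideanSpace.single ⟨0, by omega⟩ (1 : ℝ) with hp
  set q : E n := EuclideanSpace.single ⟨1, hn1⟩ (1 : ℝ) with hq
  have np : ‖p‖ = 1 := by rw [hp, PiLp.norm_single]; norm_num
  have nq : ‖q‖ = 1 := by rw [hq, PiLp.norm_single]; norm_num
  have npq : inner ℝ p q = 0 := by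
    rw [hp, hq, EuclideanSpace.inner_single_left]
    simp
  have nab : ∀ a b : ℝ, ‖a • p + b • q‖ ^ 2 = a ^ 2 + b ^ 2 := by
    intro a b
    rw [norm_add_sq_real, inner_smul_left, inner_smul_right, npq, norm_smul, norm_smul, np, nq]
    simp
  have nab1 : ∀ a b : ℝ, a ^ 2 + b ^ 2 = 1 → a • p + b • q ∈ Metric.sphere (0 : E n) 1 := by
    intro a b h
    rw [mem_sphere_zero_iff_norm]
    have := nab a b
    rw [h] at this
    have h0 : 0 ≤ ‖a • p + b • q‖ := norm_nonneg _
    nlinarith
  have ca : ∀ a b : ℝ, (a • p + b • q) ⟨0, by omega⟩ = a := by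
    intro a b
    simp [hp, hq]
  have cb : ∀ a b : ℝ, (a • p + b • q) ⟨1, hn1⟩ = b := by
    intro a b
    simp [hp, hq]
  -- the parameters of the cluster
  set τ : Fin (n - 1) → ℝ := fun i => (i : ℝ) / (1000 * n) with hτdef
  have hnpos : (0 : ℝ) < n := by
    have : 0 < n := by omega
    exact_mod_cast this
  have hτ : StrictMono τ := by
    intro i j hij
    have : (i : ℝ) < (j : ℝ) := by exact_mod_cast hij
    simp only [hτdef]
    exact div_lt_div_of_pos_right this (by positivity)
  have hτ0 : ∀ i, 0 ≤ τ i := fun i => by simp only [hτdef]; positivity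
  have hτ1 : ∀ i, |τ i| ≤ 1 / 1000 := by
    intro i
    rw [abs_of_nonneg (hτ0 i)]
    simp only [hτdef]
    have h1 : (i : ℝ) ≤ n := by
      have : (i : ℕ) ≤ n := by have := i.isLt; omega
      exact_mod_cast this
    rw [div_le_div_iff₀ (by positivity) (by norm_num)]
    nlinarith
  have hcl : ∀ i, ((1 - τ i ^ 2) / (1 + τ i ^ 2)) ^ 2 + (2 * τ i / (1 + τ i ^ 2)) ^ 2 = 1 := by
    intro i
    have hpos : 0 < 1 + τ i ^ 2 := by positivity
    field_simp
    ring
  let pt : Fin (n - 1) ⊕ Bool → Sph n := fun x => match x with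
    | Sum.inl i => ⟨((1 - τ i ^ 2) / (1 + τ i ^ 2)) • p + (2 * τ i / (1 + τ i ^ 2)) • q,
        nab1 _ _ (hcl i)⟩
    | Sum.inr true => ⟨(-(7 / 25 : ℝ)) • p + (24 / 25 : ℝ) • q, nab1 _ _ (by norm_num)⟩
    | Sum.inr false => ⟨(-(7 / 25 : ℝ)) • p + (-(24 / 25 : ℝ)) • q, nab1 _ _ (by norm_num)⟩
  have hapos : ∀ i, 0 < (1 - τ i ^ 2) / (1 + τ i ^ 2) := by
    intro i
    have h1 := hτ1 i
    rw [abs_of_nonneg (hτ0 i)] at h1
    have h2 : τ i ^ 2 < 1 := by
      have := hτ0 i
      nlinarith
    exact div_pos (by linarith) (by positivity)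
  have hinj : Function.Injective pt := by
    have key1 : ∀ (i : Fin (n - 1)) (b : Bool), pt (Sum.inl i) ≠ pt (Sum.inr b) := by
      intro i b h
      have h1 : (pt (Sum.inl i)).1 ⟨0, by omega⟩ = (pt (Sum.inr b)).1 ⟨0, by omega⟩ := by rw [h]
      have h2 : (pt (Sum.inl i)).1 ⟨0, by omega⟩ = (1 - τ i ^ 2) / (1 + τ i ^ 2) := ca _ _
      have h3 : (pt (Sum.inr b)).1 ⟨0, by omega⟩ = -(7 / 25) := by
        cases b
        · exact ca _ _
        · exact ca _ _
      have h4 := hapos i
      rw [h2, h3] at h1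
      linarith
    intro x y hxy
    rcases x with i | b <;> rcases y with j | b'
    · have h1 : (pt (Sum.inl i)).1 ⟨0, by omega⟩ = (pt (Sum.inl j)).1 ⟨0, by omega⟩ := by rw [hxy]
      have h1' : (pt (Sum.inl i)).1 ⟨1, hn1⟩ = (pt (Sum.inl j)).1 ⟨1, hn1⟩ := by rw [hxy]
      have h2 : ∀ i, (pt (Sum.inl i)).1 ⟨0, by omega⟩ = (1 - τ i ^ 2) / (1 + τ i ^ 2) :=
        fun i => ca _ _
      have h3 : ∀ i, (pt (Sum.inl i)).1 ⟨1, hn1⟩ = 2 * τ i / (1 + τ i ^ 2) := fun i => cb _ _
      rw [h2, h2] at h1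
      rw [h3, h3] at h1'
      have h4 : ∀ i, 2 * τ i / (1 + τ i ^ 2) = τ i * (1 + (1 - τ i ^ 2) / (1 + τ i ^ 2)) := by
        intro i
        have hpos : 0 < 1 + τ i ^ 2 := by positivity
        field_simp
        ring
      rw [h4, h4, h1] at h1'
      have h5 : 0 < 1 + (1 - τ j ^ 2) / (1 + τ j ^ 2) := by linarith [hapos j]
      have h6 : τ i = τ j := mul_right_cancel₀ h5.ne' h1'
      rw [hτ.injective h6]
    · exact absurd hxy (key1 i b')
    · exact absurd hxy.symm (key1 j b)
    · cases b <;> cases b'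
      · rfl
      · exfalso
        have h1 : (pt (Sum.inr false)).1 ⟨1, hn1⟩ = (pt (Sum.inr true)).1 ⟨1, hn1⟩ := by rw [hxy]
        have h2 : (pt (Sum.inr false)).1 ⟨1, hn1⟩ = -(24 / 25) := cb _ _
        have h3 : (pt (Sum.inr true)).1 ⟨1, hn1⟩ = 24 / 25 := cb _ _
        rw [h2, h3] at h1
        norm_num at h1
      · exfalso
        have h1 : (pt (Sum.inr true)).1 ⟨1, hn1⟩ = (pt (Sum.inr false)).1 ⟨1, hn1⟩ := by rw [hxy]
        have h2 : (pt (Sum.inr false)).1 ⟨1, hn1⟩ = -(24 / 25) := cb _ _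
        have h3 : (pt (Sum.inr true)).1 ⟨1, hn1⟩ = 24 / 25 := cb _ _
        rw [h2, h3] at h1
        norm_num at h1
      · rfl
  refine ⟨Finset.univ.image pt, ?_, ?_, ?_⟩
  · rw [Finset.card_image_of_injective _ hinj, Finset.card_univ, Fintype.card_sum,
      Fintype.card_fin, Fintype.card_bool]
    omega
  · -- the plane spanned by p and q
    refine ⟨Submodule.span ℝ {p, q}, ?_, ?_⟩
    · have hli : LinearIndependent ℝ ![p, q] := by
        rw [LinearIndependent.pair_iff]
        intro a b h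
        have h1 := ca a b
        have h2 := cb a b
        rw [h] at h1 h2
        exact ⟨by simpa using h1.symm, by simpa using h2.symm⟩
      have h := finrank_span_eq_card hli
      have hr : Set.range ![p, q] = {p, q} := by
        ext x
        simp only [Set.mem_range, Fin.exists_fin_two, Set.mem_insert_iff,
          Set.mem_singleton_iff]
        constructor
        · rintro (h | h)
          · left; exact h.symm
          · right; exact h.symm
        · rintro (h | h)
          · left; exact h.symm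
          · right; exact h.symm
      rw [hr, Fintype.card_fin] at h
      exact h
    · have hpV : p ∈ Submodule.span ℝ {p, q} := Submodule.subset_span (by simp)
      have hqV : q ∈ Submodule.span ℝ {p, q} := Submodule.subset_span (by simp)
      intro s hs
      obtain ⟨x, _, rfl⟩ := Finset.mem_image.mp hs
      rcases x with i | b
      · exact Submodule.add_mem _ (Submodule.smul_mem _ _ hpV) (Submodule.smul_mem _ _ hqV)
      · cases b
        · exact Submodule.add_mem _ (Submodule.smul_mem _ _ hpV) (Submodule.smul_mem _ _ hqV)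
        · exact Submodule.add_mem _ (Submodule.smul_mem _ _ hpV) (Submodule.smul_mem _ _ hqV)
  · intro m hm hK
    obtain ⟨L, hL⟩ := exists_iso n
    obtain ⟨O, _, hO⟩ := hK (fun s => WithLp.toLp 2 (fun _ => supf L s.1)) (by
      have h1 : Continuous (fun s : Sph n => supf L s.1) :=
        (continuous_supf L).comp continuous_subtype_val
      fun_prop)
    have hO' : ∀ x y, supf L (O (pt x).1) = supf L (O (pt y).1) := by
      intro x y
      have h := hO (pt x) (Finset.mem_image_of_mem _ (Finset.mem_univ _)) (pt y)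
        (Finset.mem_image_of_mem _ (Finset.mem_univ _))
      have h2 := congrArg (fun w : EuclideanSpace ℝ (Fin m) => w ⟨0, hm⟩) h
      exact h2
    have hOl : ∀ a b : ℝ, O (a • p + b • q) = a • O p + b • O q := by
      intro a b
      rw [map_add, map_smul, map_smul]
    refine key hn L hL (O p) (O q) (by rw [O.norm_map, np]) (by rw [O.norm_map, nq])
      (by rw [O.inner_map_map]; exact npq) τ hτ hτ1 (supf L (O (pt (Sum.inr true)).1)) ?_ ?_ ?_
    · intro i
      rw [← hOl]
      exact hO' (Sum.inl i) (Sum.inr true)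
    · rw [← hOl]
    · rw [← hOl]
      exact hO' (Sum.inr false) (Sum.inr true)

end Pool.Agent.Results.MP_045051_co.SmallSpheres
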